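import Pool.Agent.H756.VK.Virt

set_option autoImplicit false

/-!
Knot diagrams on surfaces with cycle-dominated states: the polynomial.
-/

namespace Pool.Agent.H756.VK

open Finset LaurentPolynomial Pool.Agent.X130 Pool.Agent.X130.KD
open Pool.Agent.H832R2.JR Pool.Agent.H867R3.Kn
open Pool.Agent.H891R2.DS (GE)

variable {N : ℕ}

theorem low1 (hN : 0 < N) (G : GaussWord N) (w s : Fin N → Bool)
    (h : Dom1 (vpieces G s) (asm w s)) (j : ℤ) (hj : (fPoly G w).coeff j ≠ 0) :
    6 * ((asm w s).card : ℤ) - N - 2 * loops G s + 2 - 3 * writhe w ≤ j := by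
  obtain ⟨a, _, hc⟩ := fPoly_coeff hN G w s
  have h1 := PP_weak (vsys hN G s) (asm w s) h
  rw [vsys_verts] at h1
  rw [hc] at hj
  have h2 := h1 _ (right_ne_zero_of_mul hj)
  linarith

theorem low2 (hN : 0 < N) (G : GaussWord N) (w s : Fin N → Bool)
    (h : Dom2 (vpieces G s) (asm w s)) :
    |(fPoly G w).coeff (6 * ((asm w s).card : ℤ) - N - 2 * loops G s + 2 - 3 * writhe w)| = 1 := by
  obtain ⟨a, ha, hc⟩ := fPoly_coeff hN G w s
  have h1 := (PP_low (vsys hN G s) (asm w s) h).2
  rw [vsys_verts] at h1
  rw [hc, abs_mul, ha, one_mul]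
  have e1 : 6 * ((asm w s).card : ℤ) - N - 2 * loops G s + 2 - 3 * writhe w + 3 * writhe w -
      (2 * (asm w s).card - N) = 4 * (asm w s).card - 2 * loops G s + 2 := by ring
  rw [e1, h1, abs_pow, abs_neg, abs_one, one_pow]

theorem asm_not (w s : Fin N → Bool) : asm (fun c => !w c) s = (asm w s)ᶜ := by
  ext c
  simp only [asm, mem_filter, mem_univ, true_and, mem_compl]
  cases s c <;> cases w c <;> simp

theorem high1 (hN : 0 < N) (G : GaussWord N) (w s : Fin N → Bool)
    (h : Dom1 (vpieces G s) (asm w s)ᶜ) (j : ℤ) (hj : (fPoly G w).coeff j ≠ 0) :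
    j ≤ N + 2 * loops G s - 2 - 6 * ((asm w s)ᶜ.card : ℤ) - 3 * writhe w := by
  have h1 := low1 hN G (fun c => !w c) s (by rw [asm_not]; exact h) (-j) (by
    rw [mirror, invert_apply, neg_neg]
    exact hj)
  rw [asm_not, M1_writhe] at h1
  linarith

theorem high2 (hN : 0 < N) (G : GaussWord N) (w s : Fin N → Bool)
    (h : Dom2 (vpieces G s) (asm w s)ᶜ) :
    |(fPoly G w).coeff (N + 2 * loops G s - 2 - 6 * ((asm w s)ᶜ.card : ℤ) - 3 * writhe w)| = 1 := by
  have h1 := low2 hN G (fun c => !w c) s (by rw [asm_not]; exact h)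
  rw [asm_not, M1_writhe, mirror, invert_apply] at h1
  rw [← h1]
  congr 2
  ring

theorem asm_card (w s : Fin N → Bool) : (asm w s).card + (asm w s)ᶜ.card = N := by
  rw [card_add_card_compl, Fintype.card_fin]

theorem untied (G : GaussWord N) (h : loops G (fun _ => true) = N + 1) : UntiedByKinks G := by
  have e7 := loops_L G (fun _ => true)
  have e8 : (st (fun _ : Fin N => true)) = fun _ => (1 : Fin 3) := by
    funext c
    simp [st]
  rw [e8] at e7
  exact t_F2 N G (t_F1 N G (by rw [← e7]; exact h))

/-- the length of the interval of exponents for two states, divided by two -/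
theorem two_sided (hN : 0 < N) (G : GaussWord N) (w s₁ s₂ : Fin N → Bool)
    (h1 : Dom2 (vpieces G s₁) (asm w s₁)) (h2 : Dom2 (vpieces G s₂) (asm w s₂)ᶜ) :
    UntiedByKinks G ∨
      3 * ((asm w s₁).card + (asm w s₂)ᶜ.card) + 6 ≤ N + loops G s₁ + loops G s₂ := by
  classical
  set M₁ := asm w s₁ with hM₁
  set M₂ := (asm w s₂)ᶜ with hM₂
  have hcc₁ : CC (vpieces G s₁) := Sys_CC (vsys hN G s₁)
  have hcc₂ : CC (vpieces G s₂) := Sys_CC (vsys hN G s₂)
  have hv₁ : vpieces G s₁ ∅ = loops G s₁ := vsys_verts hN G s₁
  have hv₂ : vpieces G s₂ ∅ = loops G s₂ := vsys_verts hN G s₂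
  have hu : ∀ s : Fin N → Bool, vpieces G s univ = 1 := vpieces_univ hN G
  -- the isolated chords
  set I : Finset (Fin N) := univ.filter (fun e => vpieces G (fun _ => true) (univ.erase e) = 2)
    with hI
  have hIs : ∀ e ∈ I, ∀ s : Fin N → Bool, s e = true → vpieces G s (univ.erase e) = 2 := by
    intro e he s hs
    rw [hI, mem_filter] at he
    rw [← he.2]
    apply vpieces_congr
    intro c hc
    have : c = e := by
      by_contra hce
      exact hc (mem_erase.2 ⟨hce, mem_univ c⟩)
    rw [this, hs]
  have hItrue : ∀ (s : Fin N → Bool) (M : Finset (Fin N)), Dom2 (vpieces G s) M → ∀ e ∈ I,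
      s e = true := by
    intro s M hM e he
    by_contra hcon
    rw [Bool.not_eq_true] at hcon
    have h3 := bridge_loop hN G (fun _ => true) s e (hIs e he _ rfl) hcon
    have h4 : vpieces G s {e} + 1 = vpieces G s ∅ := hM.noLoop (Sys_CC (vsys hN G s)) e
    omega
  have ht₁ := hItrue s₁ M₁ h1
  have ht₂ := hItrue s₂ M₂ h2
  -- bridges
  have hbr : ∀ (s : Fin N → Bool), (∀ e ∈ I, s e = true) → CC (vpieces G s) →
      NoBr (vpieces G s) (univ \ I) ∧ vpieces G s (univ \ I) = 1 + I.card := by
    intro s hs hcc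
    obtain ⟨B, hB, hBb, hc1, hc2, hc3⟩ := hcc.core univ
    have hBI : B = I := by
      ext e
      constructor
      · intro he
        have h3 := hBb e he
        rw [hu, one_add_one_eq_two] at h3
        have hse : s e = true := by
          by_contra hcon
          rw [Bool.not_eq_true] at hcon
          rw [vpieces_erase_false hN G s e hcon] at h3
          omega
        rw [hI, mem_filter]
        refine ⟨mem_univ e, ?_⟩
        rw [← h3]
        apply vpieces_congr
        intro c hc
        have : c = e := by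
          by_contra hce
          exact hc (mem_erase.2 ⟨hce, mem_univ c⟩)
        rw [this, hse]
      · intro he
        by_contra hcon
        have h3 := hIs e he s (hs e he)
        have h4 : e ∈ univ \ B := mem_sdiff.2 ⟨mem_univ e, hcon⟩
        have h5 := hcc.bridge_mono univ (univ \ B) e h4 sdiff_subset (by rw [h3, hu])
        have h6 := hc1 e h4
        omega
    rw [hBI, hu] at hc2
    rw [hBI] at hc1
    exact ⟨hc1, hc2⟩
  obtain ⟨hn₁, hk₁⟩ := hbr s₁ ht₁ hcc₁
  obtain ⟨hn₂, hk₂⟩ := hbr s₂ ht₂ hcc₂
  set C := (univ : Finset (Fin N)) \ I with hC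
  have hCI : C.card + I.card = N := by
    have := card_sdiff_add_card_inter (univ : Finset (Fin N)) I
    rw [univ_inter, card_univ, Fintype.card_fin] at this
    exact this
  -- the exceptional crossings
  have hsplit : ∀ M : Finset (Fin N), M.card = (C ∩ M).card + (I ∩ M).card := by
    intro M
    rw [← card_union_of_disjoint]
    · congr 1
      ext x
      simp only [mem_union, mem_inter, hC, mem_sdiff, mem_univ, true_and]
      tauto
    · rw [disjoint_left]
      intro x hx hx'
      rw [mem_inter, hC, mem_sdiff] at hx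
      exact hx.1.2 (mem_inter.1 hx').1
  have hIM : (I ∩ M₁).card + (I ∩ M₂).card = I.card := by
    have h3 : I ∩ M₂ = I \ M₁ := by
      ext e
      simp only [mem_inter, mem_sdiff, hM₁, hM₂, mem_compl, asm, mem_filter, mem_univ, true_and]
      constructor
      · rintro ⟨he, h4⟩
        rw [ht₂ e he] at h4
        refine ⟨he, ?_⟩
        rw [ht₁ e he]
        exact h4
      · rintro ⟨he, h4⟩
        rw [ht₁ e he] at h4
        refine ⟨he, ?_⟩
        rw [ht₂ e he]
        exact h4
    rw [h3]
    exact card_inter_add_card_sdiff I M₁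
  have e1 := hsplit M₁
  have e2 := hsplit M₂
  by_cases hCe : C.Nonempty
  · right
    have r1 := rank2 hcc₁ h1 C hCe hn₁
    have r2 := rank2 hcc₂ h2 C hCe hn₂
    obtain ⟨x, hx⟩ := hCe
    have hle : ∀ s : Fin N → Bool, CC (vpieces G s) → NoBr (vpieces G s) C →
        vpieces G s ∅ ≤ N := by
      intro s hcc hn
      have h3 := hcc.nb_mono univ C x hx (subset_univ C) (hn x hx)
      have h4 := (hcc.cc_mono (empty_subset (univ.erase x))).2
      rw [h3, hu, card_erase_of_mem (mem_univ x), card_univ, Fintype.card_fin, card_empty] at h4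
      omega
    have l1 := hle s₁ hcc₁ hn₁
    have l2 := hle s₂ hcc₂ hn₂
    omega
  · left
    rw [not_nonempty_iff_eq_empty] at hCe
    have hall : ∀ e, e ∈ I := by
      intro e
      by_contra hcon
      have : e ∈ C := mem_sdiff.2 ⟨mem_univ e, hcon⟩
      rw [hCe] at this
      exact notMem_empty e this
    have hs : s₁ = fun _ => true := funext fun e => ht₁ e (hall e)
    apply untied
    rw [← hs, ← hv₁, ← hCe, hk₁]
    rw [hCe, card_empty] at hCI
    omega

/-- two different exponents exclude units -/
theorem not_unit (f : ℤ[T;T⁻¹]) (a b : ℤ) (hab : a ≠ b) (ha : |f.coeff a| = 1)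
    (hb : |f.coeff b| = 1) (n : ℤ) : f ≠ T n ∧ f ≠ -T n := by
  have hT : ∀ m : ℤ, m ≠ n → (T n : ℤ[T;T⁻¹]).coeff m = 0 := by
    intro m hm
    rw [T_apply]
    exact if_neg (fun h => hm h.symm)
  have hne : a ≠ n ∨ b ≠ n := by
    by_contra hcon
    push Not at hcon
    exact hab (hcon.1.trans hcon.2.symm)
  constructor
  · rintro rfl
    rcases hne with h | h
    · rw [hT a h] at ha
      simp at ha
    · rw [hT b h] at hb
      simp at hb
  · rintro rfl
    rcases hne with h | h
    · have : (-T n : ℤ[T;T⁻¹]).coeff a = -((T n : ℤ[T;T⁻¹]).coeff a) := rfl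
      rw [this, hT a h] at ha
      simp at ha
    · have : (-T n : ℤ[T;T⁻¹]).coeff b = -((T n : ℤ[T;T⁻¹]).coeff b) := rfl
      rw [this, hT b h] at hb
      simp at hb

/-- the Seifert state -/
theorem seifert (hN : 0 < N) (G : GaussWord N) (w : Fin N → Bool)
    (h : Dom2 (vpieces G fun _ => true) (univ.filter fun c => w c = true) ∨
      Dom2 (vpieces G fun _ => true) (univ.filter fun c => w c = false))
    (h1 : fPoly G w = 1) : UntiedByKinks G := by
  have key : ∀ w : Fin N → Bool,
      Dom2 (vpieces G fun _ => true) (univ.filter fun c => w c = true) → fPoly G w = 1 →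
      UntiedByKinks G := by
    intro w h h1
    have hasm : asm w (fun _ => true) = univ.filter fun c => w c = true := by
      ext c
      simp only [asm, mem_filter, mem_univ, true_and]
      exact eq_comm
    have h2 := low2 hN G w (fun _ => true) (by rw [hasm]; exact h)
    have h3 := writhe_true w
    rw [h1] at h2
    have h4 : 6 * ((asm w fun _ => true).card : ℤ) - N - 2 * loops G (fun _ => true) + 2 -
        3 * writhe w = 0 := by
      apply SD.one_coeff
      intro hcon
      rw [hcon] at h2
      simp at h2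
    apply untied
    omega
  rcases h with h | h
  · exact key w h h1
  · refine key (fun c => !w c) ?_ (by rw [mirror, h1, map_one])
    have : (univ.filter fun c => (!w c) = true) = univ.filter fun c => w c = false := by
      ext c
      simp
    rw [this]
    exact h

end Pool.Agent.H756.VK
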