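import Pool.Agent.H756.VK.Fin

set_option autoImplicit false

/-!
The one-sided criterion.
-/

namespace Pool.Agent.H756.VK

open Finset LaurentPolynomial Pool.Agent.X130 Pool.Agent.X130.KD
open Pool.Agent.H832R2.JR Pool.Agent.H867R3.Kn
open Pool.Agent.H891R2.DS (GE)

variable {k N : ℕ}

/-- every cycle has at least two more edges outside `M` than in `M`, and at least three more if it
meets `M` -/
def Dom3 (cc : Finset (Fin k) → ℕ) (M : Finset (Fin k)) : Prop :=
  ∀ C, Cyc cc C → (C ∩ M).card + 2 ≤ (C \ M).card ∧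
    ((C ∩ M).Nonempty → (C ∩ M).card + 3 ≤ (C \ M).card)

theorem Dom3.two {cc : Finset (Fin k) → ℕ} {M : Finset (Fin k)} (h : Dom3 cc M) : Dom2 cc M :=
  fun C hC => (h C hC).1

/-- sets without bridges, strong domination -/
theorem rank3 {cc : Finset (Fin k) → ℕ} (h : CC cc) {M : Finset (Fin k)} (hM : Dom3 cc M)
    (H : Finset (Fin k)) (hne : (H ∩ M).Nonempty) (hH : NoBr cc H) :
    cc H + 2 * (H ∩ M).card + 2 ≤ cc ∅ := by
  classical
  obtain ⟨e0, he0⟩ := hne
  rw [mem_inter] at he0
  have hsum : ∀ D : Finset (Fin k),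
      ∑ e ∈ D, ((if e ∈ M then (-1 : ℤ) else 1) - if e = e0 then 2 else 0) =
        ((D \ M).card - (D ∩ M).card) - if e0 ∈ D then 2 else 0 := by
    intro D
    rw [sum_sub_distrib, sum_ite_eq', sum_wt]
  have h1 := kotzig H.card cc h
    (fun e => (if e ∈ M then (-1 : ℤ) else 1) - if e = e0 then 2 else 0) H rfl (by
    intro C _ hC
    rw [hsum]
    have h3 := hM C hC
    split_ifs with h4
    · have h5 := h3.2 ⟨e0, mem_inter.2 ⟨h4, he0.2⟩⟩
      omega
    · have h5 := h3.1
      omega) hH
  rw [hsum, if_pos he0.1] at h1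
  have h2 := card_inter_add_card_sdiff H M
  omega

/-- strong domination of the cycles gives the rank condition -/
theorem Dom3.dominated (hN : 0 < N) (G : GaussWord N) (s : Fin N → Bool) (M : Finset (Fin N))
    (h : Dom3 (vpieces G s) M) : VDominated G s M := by
  have hcc : CC (vpieces G s) := Sys_CC (vsys hN G s)
  refine ⟨?_, ?_⟩
  · intro c hc
    have h1 : vpieces G s {c} + 1 = vpieces G s ∅ := h.two.noLoop hcc c
    have h2 : vpieces G s {c} = vpieces G s ∅ := by
      unfold vpieces
      have hc' : vcl G s ∅ ((c, false), false) = vcl G s ∅ ((c, false), true) := by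
        refine congrArg (Quot.lift (vcl G s ∅) ?_ :
          Quot (Joined G s) → Quot (VLinked G s ∅)) hc
        intro x y hxy
        exact Quot.sound (Or.inl hxy)
      refine Nat.card_congr ⟨Quot.lift (vcl G s ∅) ?_, Quot.lift (vcl G s {c}) ?_, ?_, ?_⟩
      · rintro x y (hxy | ⟨d, hd, rfl, rfl⟩)
        · exact Quot.sound (Or.inl hxy)
        · rw [mem_singleton] at hd
          subst hd
          exact hc'
      · rintro x y (hxy | ⟨d, hd, _⟩)
        · exact Quot.sound (Or.inl hxy)
        · exact absurd hd (notMem_empty d)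
      · rintro ⟨x⟩
        rfl
      · rintro ⟨x⟩
        rfl
    omega
  · intro X hX hb
    have hv : vpieces G s ∅ = loops G s := vsys_verts hN G s
    rw [← hv]
    exact rank_nb hcc 2 (fun H hne hH => rank3 hcc h H hne hH) X hX hb

/-- strong domination on one side -/
theorem one_sided (hN : 0 < N) (G : GaussWord N) (w s : Fin N → Bool) (o : Half N → Bool)
    (ho : Ori G (st s) o) (hF : Flat G s o)
    (h : Dom3 (vpieces G s) (asm w s) ∨ Dom3 (vpieces G s) (asm w s)ᶜ) (h1 : fPoly G w = 1) :
    UntiedByKinks G := by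
  rcases h with h | h
  · exact vdetect G w s (h.dominated hN G s _) o ho hF h1
  · exact vdetect G (fun c => !w c) s (by rw [asm_not]; exact h.dominated hN G s _) o ho hF (by
      rw [mirror, h1, map_one])

end Pool.Agent.H756.VK
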