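import Mathlib

set_option autoImplicit false

/-!
A generalisation of Kotzig's theorem on unique perfect matchings: weights on the edges of a graph (or on
the elements of a matroid) all of whose cycles have positive weight.

`cc X` is the number of components of the subgraph with the edges `X` (all vertices); only two
properties of `cc` are used (they say that `cc ∅ - cc X` is the rank function of a matroid).
-/

namespace Pool.Agent.H756.VK

open Finset

variable {k : ℕ}

/-- the two properties of the number of components -/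
structure CC (cc : Finset (Fin k) → ℕ) : Prop where
  step : ∀ X e, e ∉ X → cc (insert e X) = cc X ∨ cc (insert e X) + 1 = cc X
  mono : ∀ X Y e, X ⊆ Y → e ∉ Y → cc (insert e Y) + 1 = cc Y → cc (insert e X) + 1 = cc X

/-- a set of edges without bridges -/
def NoBr (cc : Finset (Fin k) → ℕ) (X : Finset (Fin k)) : Prop := ∀ e ∈ X, cc (X.erase e) = cc X

/-- cycles: sets of edges without bridges and with cyclomatic number one -/
def Cyc (cc : Finset (Fin k) → ℕ) (X : Finset (Fin k)) : Prop :=
  NoBr cc X ∧ X.card + cc X = cc ∅ + 1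

variable {cc : Finset (Fin k) → ℕ}

theorem Cyc.nonempty {X : Finset (Fin k)} (h : Cyc cc X) : X.Nonempty := by
  rw [nonempty_iff_ne_empty]
  rintro rfl
  have := h.2
  rw [card_empty] at this
  omega

namespace CC

variable (h : CC cc)
include h

theorem erase (X : Finset (Fin k)) (e : Fin k) (he : e ∈ X) :
    cc (X.erase e) = cc X ∨ cc (X.erase e) = cc X + 1 := by
  have h1 := h.step (X.erase e) e (notMem_erase e X)
  rw [insert_erase he] at h1
  omega

/-- a bridge of a graph is a bridge of every subgraph that contains it -/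
theorem bridge_mono (H S : Finset (Fin k)) (e : Fin k) (heS : e ∈ S) (hSH : S ⊆ H)
    (he : cc (H.erase e) = cc H + 1) : cc (S.erase e) = cc S + 1 := by
  have h1 := h.mono (S.erase e) (H.erase e) e (erase_subset_erase e hSH) (notMem_erase e H)
    (by rw [insert_erase (hSH heS)]; exact he.symm)
  rw [insert_erase heS] at h1
  exact h1.symm

/-- an edge which is not a bridge is not a bridge of a larger graph -/
theorem nb_mono (H S : Finset (Fin k)) (e : Fin k) (heS : e ∈ S) (hSH : S ⊆ H)
    (he : cc (S.erase e) = cc S) : cc (H.erase e) = cc H := by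
  rcases h.erase H e (hSH heS) with h1 | h1
  · exact h1
  · have := h.bridge_mono H S e heS hSH h1
    omega

theorem bridges_union (H B S : Finset (Fin k)) (hB : B ⊆ H)
    (hbr : ∀ e ∈ B, cc (H.erase e) = cc H + 1) (hS : S ⊆ H) (hSB : Disjoint S B) :
    cc S = cc (S ∪ B) + B.card := by
  induction B using Finset.induction with
  | empty => simp
  | insert b B hb ih =>
    have hBH : B ⊆ H := fun x hx => hB (Finset.mem_insert_of_mem hx)
    have hbS : b ∉ S := fun h => Finset.disjoint_left.1 hSB h (Finset.mem_insert_self b B)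
    have h1 := ih hBH (fun e he => hbr e (Finset.mem_insert_of_mem he))
      (hSB.mono_right (Finset.subset_insert b B))
    have h2 := h.bridge_mono H (S ∪ insert b B) b
      (Finset.mem_union_right _ (Finset.mem_insert_self b B))
      (Finset.union_subset hS hB) (hbr b (Finset.mem_insert_self b B))
    have h3 : (S ∪ insert b B).erase b = S ∪ B := by
      rw [Finset.union_insert, Finset.erase_insert]
      simp [hbS, hb]
    rw [h3] at h2
    rw [Finset.card_insert_of_notMem hb, h1, h2]
    ring

theorem cc_mono {S T : Finset (Fin k)} (hST : S ⊆ T) :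
    cc T ≤ cc S ∧ S.card + cc S ≤ T.card + cc T := by
  obtain ⟨D, hD⟩ : ∃ D, D = T \ S := ⟨_, rfl⟩
  have hT : T = S ∪ D := by rw [hD, union_sdiff_of_subset hST]
  have hdis : Disjoint S D := by rw [hD]; exact disjoint_sdiff
  subst hT
  clear hD hST
  induction D using Finset.induction_on with
  | empty => simp
  | insert b D hb ih =>
    have hd' : Disjoint S D := disjoint_of_subset_right (subset_insert _ _) hdis
    have hbS : b ∉ S := fun h => disjoint_left.mp hdis h (mem_insert_self _ _)
    have hbSD : b ∉ S ∪ D := by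
      rw [mem_union]
      rintro (h | h)
      · exact hbS h
      · exact hb h
    have h1 := ih hd'
    rw [union_insert, card_insert_of_notMem hbSD]
    have := h.step (S ∪ D) b hbSD
    omega

/-- the bridges of `X` -/
theorem core (X : Finset (Fin k)) : ∃ B ⊆ X, (∀ e ∈ B, cc (X.erase e) = cc X + 1) ∧
    NoBr cc (X \ B) ∧ cc (X \ B) = cc X + B.card ∧ ∀ e ∈ X, cc (X.erase e) = cc X → e ∈ X \ B := by
  classical
  refine ⟨X.filter (fun e => cc (X.erase e) = cc X + 1), filter_subset _ _,
    fun e he => (mem_filter.1 he).2, ?_, ?_, ?_⟩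
  · intro e he
    set B := X.filter (fun e => cc (X.erase e) = cc X + 1) with hB
    have hBX : B ⊆ X := filter_subset _ _
    have hBb : ∀ e ∈ B, cc (X.erase e) = cc X + 1 := fun e he => (mem_filter.1 he).2
    rw [mem_sdiff] at he
    have h1 := h.bridges_union X B (X \ B) hBX hBb sdiff_subset sdiff_disjoint
    have h2 := h.bridges_union X B ((X \ B).erase e) hBX hBb
      ((erase_subset _ _).trans sdiff_subset)
      (disjoint_of_subset_left (erase_subset _ _) sdiff_disjoint)
    rw [sdiff_union_of_subset hBX] at h1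
    have h3 : (X \ B).erase e ∪ B = X.erase e := by
      ext x
      simp only [mem_union, mem_erase, mem_sdiff]
      constructor
      · rintro (⟨h3, h4, _⟩ | h3)
        · exact ⟨h3, h4⟩
        · exact ⟨fun hh => he.2 (hh ▸ h3), hBX h3⟩
      · rintro ⟨h3, h4⟩
        by_cases hx : x ∈ B
        · exact Or.inr hx
        · exact Or.inl ⟨h3, h4, hx⟩
    rw [h3] at h2
    have h4 : cc (X.erase e) = cc X := by
      rcases h.erase X e he.1 with h4 | h4
      · exact h4
      · exact absurd (mem_filter.2 ⟨he.1, h4⟩) he.2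
    omega
  · set B := X.filter (fun e => cc (X.erase e) = cc X + 1) with hB
    have hBX : B ⊆ X := filter_subset _ _
    have hBb : ∀ e ∈ B, cc (X.erase e) = cc X + 1 := fun e he => (mem_filter.1 he).2
    have h1 := h.bridges_union X B (X \ B) hBX hBb sdiff_subset sdiff_disjoint
    rw [sdiff_union_of_subset hBX] at h1
    exact h1
  · intro e he h1
    rw [mem_sdiff, mem_filter]
    refine ⟨he, fun hh => ?_⟩
    have := hh.2
    omega

/-- a nonempty set without bridges contains a cycle -/
theorem exists_cyc (H : Finset (Fin k)) (hne : H.Nonempty) (hH : NoBr cc H) :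
    ∃ C ⊆ H, Cyc cc C := by
  classical
  induction hn : H.card using Nat.strong_induction_on generalizing H with
  | _ n ih =>
    obtain ⟨e, he⟩ := hne
    obtain ⟨B, hB, hBb, hc1, hc2, hc3⟩ := h.core (H.erase e)
    by_cases hne' : (H.erase e \ B).Nonempty
    · obtain ⟨C, hC, hC'⟩ := ih _ (by
        rw [← hn]
        exact (card_le_card sdiff_subset).trans_lt (card_erase_lt_of_mem he)) _ hne' hc1 rfl
      exact ⟨C, hC.trans (sdiff_subset.trans (erase_subset _ _)), hC'⟩
    · rw [not_nonempty_iff_eq_empty] at hne'
      refine ⟨H, subset_rfl, hH, ?_⟩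
      rw [hne'] at hc2
      have h1 := hH e he
      have h2 : B = H.erase e := subset_antisymm hB (sdiff_eq_empty_iff_subset.1 hne')
      rw [h2, card_erase_of_mem he] at hc2
      have h3 : 0 < H.card := card_pos.2 ⟨e, he⟩
      omega

/-- contraction -/
theorem contract (C : Finset (Fin k)) : CC (fun X => cc (X ∪ C)) := by
  refine ⟨?_, ?_⟩
  · intro X e he
    by_cases heC : e ∈ C
    · left
      show cc (insert e X ∪ C) = cc (X ∪ C)
      rw [insert_union, insert_eq_of_mem (mem_union_right _ heC)]
    · have h1 := h.step (X ∪ C) e (by rw [mem_union]; tauto)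
      show cc (insert e X ∪ C) = cc (X ∪ C) ∨ cc (insert e X ∪ C) + 1 = cc (X ∪ C)
      rw [insert_union]
      exact h1
  · intro X Y e hXY he h1
    by_cases heC : e ∈ C
    · exfalso
      have h1' : cc (insert e Y ∪ C) + 1 = cc (Y ∪ C) := h1
      rw [insert_union, insert_eq_of_mem (mem_union_right _ heC)] at h1'
      omega
    · have h1' : cc (insert e Y ∪ C) + 1 = cc (Y ∪ C) := h1
      show cc (insert e X ∪ C) + 1 = cc (X ∪ C)
      rw [insert_union] at h1' ⊢
      exact h.mono _ _ e (union_subset_union hXY subset_rfl) (by rw [mem_union]; tauto) h1'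

/-- the key lemma: weights of the cycles after a contraction -/
theorem key (w : Fin k → ℤ) (C C' : Finset (Fin k)) (hC : Cyc cc C) (hd : Disjoint C' C)
    (hC' : Cyc (fun X => cc (X ∪ C)) C')
    (hw : ∀ D ⊆ C' ∪ C, Cyc cc D → 1 ≤ ∑ e ∈ D, w e) (hwC : ∑ e ∈ C, w e = 1) :
    1 ≤ ∑ e ∈ C', w e := by
  classical
  obtain ⟨hCb, hCc⟩ := hC
  obtain ⟨hC'b, hC'c⟩ := hC'
  simp only [empty_union] at hC'c
  set U := C' ∪ C with hU
  have hUcard : U.card = C'.card + C.card := card_union_of_disjoint hd
  have hUc : U.card + cc U = cc ∅ + 2 := by omega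
  have hUb : NoBr cc U := by
    intro e he
    rcases mem_union.1 he with he' | he'
    · have h1 : cc (C'.erase e ∪ C) = cc (C' ∪ C) := hC'b e he'
      have h2 : C'.erase e ∪ C = U.erase e := by
        rw [hU]
        ext x
        simp only [mem_union, mem_erase]
        constructor
        · rintro (h3 | h3)
          · exact ⟨h3.1, Or.inl h3.2⟩
          · exact ⟨fun hh => disjoint_left.1 hd he' (hh ▸ h3), Or.inr h3⟩
        · rintro ⟨h3, h4 | h4⟩
          · exact Or.inl ⟨h3, h4⟩
          · exact Or.inr h4
      rw [← h2]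
      exact h1
    · exact h.nb_mono U C e he' subset_union_right (hCb e he')
  -- the cycle `σ e` which avoids `e`
  have hσ : ∀ e, ∃ D, e ∈ U → D ⊆ U.erase e ∧ Cyc cc D ∧
      ∀ f ∈ U.erase e, cc ((U.erase e).erase f) = cc (U.erase e) → f ∈ D := by
    intro e
    by_cases he : e ∈ U
    · obtain ⟨B, hB, hBb, hc1, hc2, hc3⟩ := h.core (U.erase e)
      refine ⟨U.erase e \ B, fun _ => ⟨sdiff_subset, ⟨hc1, ?_⟩, hc3⟩⟩
      have h1 := hUb e he
      have h2 : (U.erase e \ B).card + B.card = (U.erase e).card := card_sdiff_add_card_eq_card hB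
      rw [card_erase_of_mem he] at h2
      have h3 : 0 < U.card := card_pos.2 ⟨e, he⟩
      omega
    · exact ⟨∅, fun h' => absurd h' he⟩
  choose σ hσ using hσ
  -- a cycle in `U` which avoids `e` is `σ e`
  have huniq : ∀ e ∈ U, ∀ D ⊆ U.erase e, Cyc cc D → D = σ e := by
    intro e he D hD hDc
    obtain ⟨h1, h2, h3⟩ := hσ e he
    have h4 : D ⊆ σ e := by
      intro f hf
      exact h3 f (hD hf) (h.nb_mono _ D f hf hD (hDc.1 f hf))
    have h5 := (h.cc_mono h4).2
    -- equal cyclomatic numbers and no bridges
    by_contra hne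
    obtain ⟨f, hf, hfD⟩ := exists_of_ssubset (Finset.ssubset_iff_subset_ne.2 ⟨h4, hne⟩)
    have h6 : D ⊆ (σ e).erase f := by
      intro x hx
      rw [mem_erase]
      exact ⟨fun hh => hfD (hh ▸ hx), h4 hx⟩
    have h7 := (h.cc_mono h6).2
    have h8 := h2.1 f hf
    rw [card_erase_of_mem hf, h8] at h7
    have h9 := h2.2
    have h10 := hDc.2
    have h11 : 0 < (σ e).card := card_pos.2 ⟨f, hf⟩
    omega
  have hCU : ∀ e ∈ C', C ⊆ U.erase e := by
    intro e he x hx
    rw [mem_erase]
    exact ⟨fun hh => disjoint_left.1 hd (hh ▸ he) hx, mem_union_right _ hx⟩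
  have hσC' : ∀ e ∈ C', σ e = C := by
    intro e he
    exact (huniq e (mem_union_left _ he) C (hCU e he) ⟨hCb, hCc⟩).symm
  -- equivalence
  have heqv : ∀ e ∈ U, ∀ f ∈ U, f ∉ σ e → σ f = σ e := by
    intro e he f hf hfe
    obtain ⟨h1, h2, h3⟩ := hσ e he
    symm
    apply huniq f hf (σ e) _ h2
    intro x hx
    rw [mem_erase]
    exact ⟨fun hh => hfe (hh ▸ hx), (erase_subset _ _) (h1 hx)⟩
  have hself : ∀ e ∈ U, e ∉ σ e := by
    intro e he hh
    exact (mem_erase.1 ((hσ e he).1 hh)).1 rfl
  -- elements of `C` are not equivalent to elements of `C'`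
  have hCC' : ∀ e ∈ C, C' ⊆ σ e := by
    intro e he x hx
    by_contra hcon
    have h1 := heqv e (mem_union_right _ he) x (mem_union_left _ hx) hcon
    rw [hσC' x hx] at h1
    exact hself e (mem_union_right _ he) (h1 ▸ he)
  set t := ∑ e ∈ U, w e with ht
  have htC : t = ∑ e ∈ C', w e + 1 := by
    rw [ht, hU, sum_union hd, hwC]
  by_contra hcon
  push Not at hcon
  have ht1 : t ≤ 1 := by omega
  -- the sum over the classes in `C`
  have hclass : ∀ e ∈ C, ∑ f ∈ C.filter (fun f => σ f = σ e), w f ≤ 0 := by
    intro e he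
    have heU : e ∈ U := mem_union_right _ he
    obtain ⟨h1, h2, h3⟩ := hσ e heU
    have h4 := hw (σ e) (h1.trans (erase_subset _ _)) h2
    have h5 : U \ σ e = C.filter (fun f => σ f = σ e) := by
      ext f
      rw [mem_sdiff, mem_filter]
      constructor
      · rintro ⟨hf, hfe⟩
        have hfC : f ∈ C := by
          rcases mem_union.1 hf with h6 | h6
          · exact absurd (hCC' e he h6) hfe
          · exact h6
        exact ⟨hfC, heqv e heU f hf hfe⟩
      · rintro ⟨hf, hfe⟩
        have hfU : f ∈ U := mem_union_right _ hf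
        exact ⟨hfU, by rw [← hfe]; exact hself f hfU⟩
    have h6 : ∑ f ∈ U \ σ e, w f + ∑ f ∈ σ e, w f = t :=
      sum_sdiff (h1.trans (erase_subset _ _))
    rw [← h5]
    omega
  have hsum : ∑ e ∈ C, w e ≤ 0 := by
    rw [← sum_fiberwise_of_maps_to (s := C) (t := C.image σ) (g := σ)
      (fun e he => mem_image_of_mem σ he)]
    apply sum_nonpos
    intro D hD
    obtain ⟨e, he, rfl⟩ := mem_image.1 hD
    exact hclass e he
  omega

end CC

/-- **Weights on cycles.**  If all cycles in `H` have positive weight and `H` has no bridges, then the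
weight of `H` is at least its cyclomatic number. -/
theorem kotzig : ∀ (n : ℕ) (cc : Finset (Fin k) → ℕ) (_ : CC cc) (w : Fin k → ℤ)
    (H : Finset (Fin k)), H.card = n → (∀ C ⊆ H, Cyc cc C → 1 ≤ ∑ e ∈ C, w e) → NoBr cc H →
    (H.card : ℤ) + cc H ≤ ∑ e ∈ H, w e + cc ∅ := by
  classical
  intro n
  induction n using Nat.strong_induction_on with
  | _ n ih =>
    intro cc h w H hn hw hH
    rcases H.eq_empty_or_nonempty with rfl | hne
    · simp
    · -- a cycle of minimal weight
      obtain ⟨C1, hC1, hC1c⟩ := h.exists_cyc H hne hH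
      obtain ⟨C, hC, hCmin⟩ := exists_min_image (H.powerset.filter (fun C => Cyc cc C))
        (fun C => ∑ e ∈ C, w e) ⟨C1, mem_filter.2 ⟨mem_powerset.2 hC1, hC1c⟩⟩
      rw [mem_filter, mem_powerset] at hC
      obtain ⟨hCH, hCc⟩ := hC
      obtain ⟨e0, he0⟩ := hCc.nonempty
      have hwC := hw C hCH hCc
      -- lower the weight of `e0`
      set δ := ∑ e ∈ C, w e - 1 with hδ
      set w' : Fin k → ℤ := fun e => if e = e0 then w e - δ else w e with hw'
      have hsum : ∀ D : Finset (Fin k), ∑ e ∈ D, w' e = ∑ e ∈ D, w e - if e0 ∈ D then δ else 0 := by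
        intro D
        have h1 : ∀ e ∈ D, w' e = w e - if e = e0 then δ else 0 := by
          intro e _
          simp only [hw']
          split_ifs <;> ring
        rw [sum_congr rfl h1, sum_sub_distrib, sum_ite_eq']
      have hw'C : ∑ e ∈ C, w' e = 1 := by
        rw [hsum, if_pos he0, hδ]
        ring
      have hw'1 : ∀ D ⊆ H, Cyc cc D → 1 ≤ ∑ e ∈ D, w' e := by
        intro D hD hDc
        have h1 := hCmin D (mem_filter.2 ⟨mem_powerset.2 hD, hDc⟩)
        have h2 := hw D hD hDc
        rw [hsum]
        split_ifs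
        · omega
        · omega
      -- contraction
      have hHC : (H \ C).card + C.card = H.card := card_sdiff_add_card_eq_card hCH
      have hCpos : 0 < C.card := card_pos.2 ⟨e0, he0⟩
      have h3 := ih (H \ C).card (by omega) (fun X => cc (X ∪ C)) (h.contract C) w' (H \ C) rfl
        (by
          intro C' hC' hC'c
          have hd : Disjoint C' C := disjoint_of_subset_left hC' sdiff_disjoint
          apply h.key w' C C' hCc hd hC'c _ hw'C
          intro D hD hDc
          apply hw'1 D _ hDc
          exact hD.trans (union_subset (hC'.trans sdiff_subset) hCH))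
        (by
          intro e he
          rw [mem_sdiff] at he
          show cc ((H \ C).erase e ∪ C) = cc (H \ C ∪ C)
          rw [sdiff_union_of_subset hCH]
          have h4 : (H \ C).erase e ∪ C = H.erase e := by
            ext x
            simp only [mem_union, mem_erase, mem_sdiff]
            constructor
            · rintro (⟨h5, h6, _⟩ | h5)
              · exact ⟨h5, h6⟩
              · exact ⟨fun hh => he.2 (hh ▸ h5), hCH h5⟩
            · rintro ⟨h5, h6⟩
              by_cases hx : x ∈ C
              · exact Or.inr hx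
              · exact Or.inl ⟨h5, h6, hx⟩
          rw [h4]
          exact hH e he.1)
      simp only [empty_union, sdiff_union_of_subset hCH] at h3
      have h4 : ∑ e ∈ H \ C, w' e + ∑ e ∈ C, w' e = ∑ e ∈ H, w' e := sum_sdiff hCH
      have h5 := hsum H
      rw [if_pos (hCH he0)] at h5
      have h6 := hCc.2
      omega

end Pool.Agent.H756.VK
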