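import Pool.Agent.H756.VK.K
import Pool.Graph.R_pool_sql_team_seeded_64922ed1.X130.KD.E

set_option autoImplicit false

/-!
Consequences of the theorem on weights for the rank, and the extreme coefficient of a state sum.
-/

namespace Pool.Agent.H756.VK

open Finset LaurentPolynomial Pool.Agent.X130 Pool.Agent.X130.KD
open Pool.Agent.H891R2 Pool.Agent.H891R2.MT.T4b
open Pool.Agent.H891R2.DS (GE)

variable {k : ℕ}

/-- every cycle has more edges outside `M` than in `M` -/
def Dom1 (cc : Finset (Fin k) → ℕ) (M : Finset (Fin k)) : Prop :=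
  ∀ C, Cyc cc C → (C ∩ M).card + 1 ≤ (C \ M).card

/-- every cycle has at least two more edges outside `M` than in `M` -/
def Dom2 (cc : Finset (Fin k) → ℕ) (M : Finset (Fin k)) : Prop :=
  ∀ C, Cyc cc C → (C ∩ M).card + 2 ≤ (C \ M).card

theorem Dom2.one {cc : Finset (Fin k) → ℕ} {M : Finset (Fin k)} (h : Dom2 cc M) : Dom1 cc M := by
  intro C hC
  have := h C hC
  omega

theorem sum_wt (M X : Finset (Fin k)) :
    ∑ e ∈ X, (if e ∈ M then (-1 : ℤ) else 1) = (X \ M).card - (X ∩ M).card := by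
  rw [← Finset.sum_inter_add_sum_sdiff X M]
  have h1 : ∑ e ∈ X ∩ M, (if e ∈ M then (-1 : ℤ) else 1) = ∑ e ∈ X ∩ M, (-1 : ℤ) :=
    sum_congr rfl fun e he => if_pos (mem_inter.1 he).2
  have h2 : ∑ e ∈ X \ M, (if e ∈ M then (-1 : ℤ) else 1) = ∑ e ∈ X \ M, (1 : ℤ) :=
    sum_congr rfl fun e he => if_neg (mem_sdiff.1 he).2
  rw [h1, h2]
  simp
  ring

/-- sets without bridges, weak domination -/
theorem rank1 {cc : Finset (Fin k) → ℕ} (h : CC cc) {M : Finset (Fin k)} (hM : Dom1 cc M)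
    (H : Finset (Fin k)) (hH : NoBr cc H) : cc H + 2 * (H ∩ M).card ≤ cc ∅ := by
  have h1 := kotzig H.card cc h (fun e => if e ∈ M then (-1 : ℤ) else 1) H rfl (by
    intro C _ hC
    rw [sum_wt]
    have := hM C hC
    omega) hH
  rw [sum_wt] at h1
  have h2 := card_inter_add_card_sdiff H M
  omega

/-- sets without bridges, domination -/
theorem rank2 {cc : Finset (Fin k) → ℕ} (h : CC cc) {M : Finset (Fin k)} (hM : Dom2 cc M)
    (H : Finset (Fin k)) (hne : H.Nonempty) (hH : NoBr cc H) :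
    cc H + 2 * (H ∩ M).card + 1 ≤ cc ∅ := by
  classical
  obtain ⟨e0, he0⟩ := hne
  have hsum : ∀ D : Finset (Fin k),
      ∑ e ∈ D, ((if e ∈ M then (-1 : ℤ) else 1) - if e = e0 then 1 else 0) =
        ((D \ M).card - (D ∩ M).card) - if e0 ∈ D then 1 else 0 := by
    intro D
    rw [sum_sub_distrib, sum_ite_eq', sum_wt]
  have h1 := kotzig H.card cc h
    (fun e => (if e ∈ M then (-1 : ℤ) else 1) - if e = e0 then 1 else 0) H rfl (by
    intro C _ hC
    rw [hsum]
    have := hM C hC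
    split_ifs <;> omega) hH
  rw [hsum, if_pos he0] at h1
  have h2 := card_inter_add_card_sdiff H M
  omega

/-- sets in which the edges of `M` are not bridges -/
theorem rank_nb {cc : Finset (Fin k) → ℕ} (h : CC cc) {M : Finset (Fin k)} (t : ℕ)
    (hb : ∀ H : Finset (Fin k), (H ∩ M).Nonempty → NoBr cc H → cc H + 2 * (H ∩ M).card + t ≤ cc ∅)
    (H : Finset (Fin k)) (hne : (H ∩ M).Nonempty) (hH : ∀ e ∈ H ∩ M, cc (H.erase e) = cc H) :
    cc H + 2 * (H ∩ M).card + t ≤ cc ∅ := by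
  obtain ⟨B, hB, hBb, hc1, hc2, hc3⟩ := h.core H
  have hBM : ∀ e ∈ B, e ∉ M := by
    intro e he heM
    have h1 := hBb e he
    have h2 := hH e (mem_inter.2 ⟨hB he, heM⟩)
    omega
  have hint : (H \ B) ∩ M = H ∩ M := by
    ext x
    simp only [mem_inter, mem_sdiff]
    constructor
    · rintro ⟨⟨h1, _⟩, h2⟩
      exact ⟨h1, h2⟩
    · rintro ⟨h1, h2⟩
      exact ⟨⟨h1, fun hx => hBM x hx h2⟩, h2⟩
  have h1 := hb (H \ B) (by rw [hint]; exact hne) hc1
  rw [hint] at h1
  omega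

/-- domination excludes loops -/
theorem Dom1.noLoop {cc : Finset (Fin k) → ℕ} (h : CC cc) {M : Finset (Fin k)} (hM : Dom1 cc M)
    (e : Fin k) (he : e ∈ M) : cc {e} + 1 = cc ∅ := by
  rcases h.step ∅ e (notMem_empty e) with h1 | h1
  · exfalso
    rw [insert_empty_eq] at h1
    have hc : Cyc cc {e} := by
      refine ⟨?_, by rw [card_singleton, h1]; ring⟩
      intro x hx
      rw [mem_singleton] at hx
      subst hx
      rw [Finset.erase_singleton, h1]
    have h2 := hM _ hc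
    have h3 : ({e} : Finset (Fin k)) \ M = ∅ := by
      rw [sdiff_eq_empty_iff_subset]
      exact singleton_subset_iff.2 he
    rw [h3, card_empty] at h2
    omega
  · rwa [insert_empty_eq] at h1

theorem Dom2.noLoop {cc : Finset (Fin k) → ℕ} (h : CC cc) {M : Finset (Fin k)} (hM : Dom2 cc M)
    (e : Fin k) : cc {e} + 1 = cc ∅ := by
  rcases h.step ∅ e (notMem_empty e) with h1 | h1
  · exfalso
    rw [insert_empty_eq] at h1
    have hc : Cyc cc {e} := by
      refine ⟨?_, by rw [card_singleton, h1]; ring⟩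
      intro x hx
      rw [mem_singleton] at hx
      subst hx
      rw [Finset.erase_singleton, h1]
    have h2 := hM _ hc
    have h3 : (({e} : Finset (Fin k)) \ M).card ≤ 1 := by
      refine (card_le_card sdiff_subset).trans ?_
      rw [card_singleton]
    omega
  · rwa [insert_empty_eq] at h1

theorem Sys_CC (Γ : Sys k) : CC Γ.cc := ⟨Γ.cc_step, Γ.br_mono⟩

/-- the edges of `M` which are not bridges of `F ∪ M` -/
noncomputable def NB (Γ : Sys k) (M F : Finset (Fin k)) : Finset (Fin k) := M \ Γ.BB M F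

theorem NB_inter (Γ : Sys k) (M F : Finset (Fin k)) (hFM : Disjoint F M) :
    (F ∪ NB Γ M F) ∩ M = NB Γ M F := (Γ.nonbridge M F hFM).1

/-- the terms of a block -/
theorem term_coeff (a : ℤ) (b n : ℕ) (j : ℤ) :
    (T a * ((-1) ^ b * T (2 * b) * (-T 2 - T (-2)) ^ n) : ℤ[T;T⁻¹]).coeff j =
      (-1) ^ b * ((-T 2 - T (-2) : ℤ[T;T⁻¹]) ^ n).coeff (j - a - 2 * b) := by
  have e : (T a * ((-1) ^ b * T (2 * b) * (-T 2 - T (-2)) ^ n) : ℤ[T;T⁻¹]) =
      T a * ((-1) ^ b * (T (2 * b) * (-T 2 - T (-2)) ^ n)) := by ring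
  rw [e, SD.coeff_T_mul, SD.coeff_sgn_mul, SD.coeff_T_mul]

theorem d_pow_low (n : ℕ) (j : ℤ) (h : j < -(2 * n)) :
    ((-T 2 - T (-2) : ℤ[T;T⁻¹]) ^ n).coeff j = 0 := by
  by_contra hcon
  have := (MT.T4b.SIn_d.pow n j hcon).1
  omega

open Classical in
/-- the coefficients of a block in the extreme degree -/
theorem blk_coeff (Γ : Sys k) (M F : Finset (Fin k)) (hFM : Disjoint F M)
    (hr : Γ.cc (F ∪ NB Γ M F) + 2 * (NB Γ M F).card ≤ Γ.verts) :
    GE (Γ.blk M F) (4 * M.card - 2 * Γ.verts + 2) ∧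
    (Γ.blk M F).coeff (4 * M.card - 2 * Γ.verts + 2) =
      if Γ.cc (F ∪ NB Γ M F) + 2 * (NB Γ M F).card = Γ.verts ∧
        Γ.f (F ∪ NB Γ M F) + Γ.verts = F.card + (NB Γ M F).card + 2 * Γ.cc (F ∪ NB Γ M F)
      then (-1) ^ (Γ.verts + 1) * (-1) ^ (F.card + (NB Γ M F).card) else 0 := by
  have hexp := Γ.blk_sum M F hFM
  have hx0 := Γ.hx M F hFM
  obtain ⟨hn1, hn2⟩ := Γ.nonbridge M F hFM
  have hBJ : M.card = (NB Γ M F).card + (Γ.BB M F).card := by
    unfold NB
    rw [card_sdiff_of_subset (Γ.BB_sub M F)]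
    have := card_le_card (Γ.BB_sub M F)
    omega
  change Γ.blk M F = ∑ Q' ∈ (NB Γ M F).powerset, T (2 * F.card - 2 * Q'.card) *
      ((-1) ^ (Γ.BB M F).card * T (2 * (Γ.BB M F).card) *
        (-T 2 - T (-2)) ^ (Γ.f (F ∪ Q') - 1 - (Γ.BB M F).card)) at hexp
  change ∀ Q' ⊆ NB Γ M F, (Γ.BB M F).card ≤ Γ.f (F ∪ Q') - 1 at hx0
  change (F ∪ NB Γ M F) ∩ M = NB Γ M F at hn1
  change ∀ e ∈ NB Γ M F, Γ.cc ((F ∪ NB Γ M F).erase e) = Γ.cc (F ∪ NB Γ M F) at hn2
  set B := Γ.BB M F with hB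
  set J := NB Γ M F with hJ
  have hJM : J ⊆ M := sdiff_subset
  have hcardU : ∀ Q ⊆ M, (F ∪ Q).card = F.card + Q.card := fun Q hQ =>
    card_union_of_disjoint (disjoint_of_subset_right hQ hFM)
  have hcl : ∀ Q ⊆ J, (Γ.f (F ∪ Q) : ℤ) ≤ F.card + Q.card - Γ.verts + 2 * Γ.cc (F ∪ Q) := by
    intro Q hQ
    have h1 := Γ.curves_le (F ∪ Q)
    rw [hcardU Q (hQ.trans hJM)] at h1
    push_cast at h1
    linarith
  have hmono : ∀ Q ⊆ J, Γ.cc (F ∪ Q) + Q.card ≤ Γ.cc (F ∪ J) + J.card := by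
    intro Q hQ
    have h3 := (Γ.cc_mono (union_subset_union (subset_refl F) hQ)).2
    rw [hcardU Q (hQ.trans hJM), hcardU J hJM] at h3
    omega
  have hstrict : ∀ Q ⊆ J, Q ≠ J → Γ.cc (F ∪ Q) + Q.card + 1 ≤ Γ.cc (F ∪ J) + J.card := by
    intro Q hQ hQJ
    obtain ⟨e, heJ, heQ⟩ : ∃ e ∈ J, e ∉ Q := by
      by_contra hcon
      push Not at hcon
      exact hQJ (subset_antisymm hQ hcon)
    have h1 : Γ.cc ((F ∪ J).erase e) = Γ.cc (F ∪ J) := hn2 e heJ
    have heF : e ∉ F := fun hh => disjoint_left.1 hFM hh (hJM heJ)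
    have hsub : F ∪ Q ⊆ (F ∪ J).erase e := by
      intro x hx
      rw [mem_erase]
      refine ⟨?_, union_subset_union le_rfl hQ hx⟩
      rintro rfl
      rcases mem_union.1 hx with hh | hh
      · exact heF hh
      · exact heQ hh
    have h3 := (Γ.cc_mono hsub).2
    rw [hcardU Q (hQ.trans hJM), card_erase_of_mem (mem_union_right _ heJ), hcardU J hJM, h1] at h3
    have : 0 < J.card := card_pos.2 ⟨e, heJ⟩
    omega
  have hterm : ∀ Q ⊆ J, ((Γ.f (F ∪ Q) - 1 - B.card : ℕ) : ℤ) = Γ.f (F ∪ Q) - 1 - B.card := by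
    intro Q hQ
    have h1 := hx0 Q hQ
    have h2 := Γ.f_pos (F ∪ Q)
    omega
  constructor
  · intro j hj
    by_contra hcon
    push Not at hcon
    apply hj
    rw [hexp, Sys.coeff_sum]
    apply sum_eq_zero
    intro Q hQ
    rw [mem_powerset] at hQ
    rw [term_coeff, d_pow_low, mul_zero]
    have h1 := hcl Q hQ
    have h2 := hmono Q hQ
    rw [hterm Q hQ]
    omega
  · rw [hexp, Sys.coeff_sum, sum_eq_single J]
    · rw [term_coeff]
      have h1 := hterm J subset_rfl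
      have h3 := hx0 J subset_rfl
      have h5 := Γ.f_pos (F ∪ J)
      have h6 := hcl J subset_rfl
      split_ifs with hif
      · obtain ⟨heq, hcurv⟩ := hif
        have h2 : (4 * (M.card : ℤ) - 2 * Γ.verts + 2 - (2 * F.card - 2 * J.card) - 2 * B.card) =
            -(2 * ((Γ.f (F ∪ J) - 1 - B.card : ℕ) : ℤ)) := by
          rw [h1]
          omega
        rw [h2, DS.D10.coeff_d_pow, ← pow_add, ← pow_add]
        have h4 : B.card + (Γ.f (F ∪ J) - 1 - B.card) = Γ.f (F ∪ J) - 1 := by omega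
        rw [h4]
        rcases Nat.even_or_odd (Γ.f (F ∪ J) - 1) with hev | hodd
        · rw [hev.neg_one_pow, Even.neg_one_pow]
          rw [Nat.even_iff] at hev ⊢
          omega
        · rw [hodd.neg_one_pow, Odd.neg_one_pow]
          rw [Nat.odd_iff] at hodd ⊢
          omega
      · rw [d_pow_low, mul_zero]
        rw [h1]
        omega
    · intro Q hQ hQJ
      rw [mem_powerset] at hQ
      rw [term_coeff, d_pow_low, mul_zero]
      have h1 := hcl Q hQ
      have h2 := hstrict Q hQ hQJ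
      rw [hterm Q hQ]
      omega
    · intro hcon
      exact absurd (mem_powerset.2 subset_rfl) hcon

/-- weak domination: the degree bound -/
theorem rank_block (Γ : Sys k) (M F : Finset (Fin k)) (hFM : Disjoint F M) (t : ℕ)
    (hb : ∀ H : Finset (Fin k), (H ∩ M).Nonempty → NoBr Γ.cc H →
      Γ.cc H + 2 * (H ∩ M).card + t ≤ Γ.cc ∅)
    (hne : (NB Γ M F).Nonempty) : Γ.cc (F ∪ NB Γ M F) + 2 * (NB Γ M F).card + t ≤ Γ.verts := by
  obtain ⟨hn1, hn2⟩ := Γ.nonbridge M F hFM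
  change (F ∪ NB Γ M F) ∩ M = NB Γ M F at hn1
  change ∀ e ∈ NB Γ M F, Γ.cc ((F ∪ NB Γ M F).erase e) = Γ.cc (F ∪ NB Γ M F) at hn2
  have h1 := rank_nb (Sys_CC Γ) t hb (F ∪ NB Γ M F) (by rw [hn1]; exact hne) (by rw [hn1]; exact hn2)
  rw [hn1] at h1
  exact h1

/-- weak domination: no terms of low degree -/
theorem PP_weak (Γ : Sys k) (M : Finset (Fin k)) (hM : Dom1 Γ.cc M) :
    GE (Γ.PP M) (4 * M.card - 2 * Γ.verts + 2) := by
  rw [Γ.PP_eq]
  apply DS.D8.GE_sum
  intro F hF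
  have hFM : Disjoint F M := by
    rw [mem_powerset] at hF
    rw [disjoint_left]
    exact fun x hx => mem_compl.1 (hF hx)
  refine (blk_coeff Γ M F hFM ?_).1
  by_cases hne : (NB Γ M F).Nonempty
  · exact rank_block Γ M F hFM 0 (fun H _ hH => rank1 (Sys_CC Γ) hM H hH) hne
  · rw [not_nonempty_iff_eq_empty] at hne
    rw [hne, union_empty, card_empty]
    exact (Γ.cc_mono (empty_subset F)).1

/-- domination: the extreme coefficient -/
theorem PP_low (Γ : Sys k) (M : Finset (Fin k)) (hM : Dom2 Γ.cc M) :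
    GE (Γ.PP M) (4 * M.card - 2 * Γ.verts + 2) ∧
      (Γ.PP M).coeff (4 * M.card - 2 * Γ.verts + 2) = (-1) ^ (Γ.verts + 1) := by
  classical
  refine ⟨PP_weak Γ M hM.one, ?_⟩
  have hFM : ∀ F ∈ (Mᶜ).powerset, Disjoint F M := by
    intro F hF
    rw [mem_powerset] at hF
    rw [disjoint_left]
    exact fun x hx => mem_compl.1 (hF hx)
  have hr2 : ∀ H : Finset (Fin k), (H ∩ M).Nonempty → NoBr Γ.cc H →
      Γ.cc H + 2 * (H ∩ M).card + 1 ≤ Γ.cc ∅ := fun H hne hH =>
    rank2 (Sys_CC Γ) hM H (hne.mono inter_subset_left) hH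
  rw [Γ.PP_eq, Sys.coeff_sum, sum_eq_single ∅]
  · have hNB : NB Γ M ∅ = ∅ := by
      by_contra hne
      have hne' := nonempty_iff_ne_empty.2 hne
      have h1 := rank_block Γ M ∅ (disjoint_empty_left M) 1 hr2 hne'
      rw [empty_union] at h1
      have h2 := Γ.cc_pos (NB Γ M ∅)
      have h3 := card_pos.2 hne'
      omega
    have h1 := (blk_coeff Γ M ∅ (disjoint_empty_left M) (by
      rw [hNB, union_empty, card_empty]
      exact le_rfl)).2
    rw [hNB, union_empty, card_empty] at h1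
    rw [h1, if_pos]
    · simp
    · refine ⟨rfl, ?_⟩
      rw [Γ.f_empty]
      unfold Sys.verts
      ring
  · intro F hF hFne
    have hd := hFM F hF
    by_cases hne : (NB Γ M F).Nonempty
    · have h1 := rank_block Γ M F hd 1 hr2 hne
      rw [(blk_coeff Γ M F hd (by omega)).2, if_neg]
      intro h2
      have := h2.1
      omega
    · rw [not_nonempty_iff_eq_empty] at hne
      obtain ⟨e, he⟩ := nonempty_iff_ne_empty.2 hFne
      have h1 := hM.noLoop (Sys_CC Γ) e
      have h2 := (Γ.cc_mono (singleton_subset_iff.2 he)).1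
      have h3 : Γ.cc F + 1 ≤ Γ.verts := by
        unfold Sys.verts
        omega
      have h4 := (blk_coeff Γ M F hd (by
        rw [hne, union_empty, card_empty]
        omega)).2
      rw [h4, if_neg]
      rw [hne, union_empty, card_empty]
      intro h5
      have := h5.1
      omega
  · intro h1
    exact absurd (empty_mem_powerset _) h1

end Pool.Agent.H756.VK
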