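import Pool.Agent.H756.VK.Rank

set_option autoImplicit false

/-!
Knot diagrams on surfaces with cycle-dominated states.
-/

namespace Pool.Agent.H756.VK

open Finset LaurentPolynomial Pool.Agent.X130 Pool.Agent.X130.KD
open Pool.Agent.H832R2.JR Pool.Agent.H867R3.Kn
open Pool.Agent.H891R2.DS (GE)

variable {N : ℕ}

/-- the class of a half edge in the state with the chords of `X` -/
def vcl (G : GaussWord N) (s : Fin N → Bool) (X : Finset (Fin N)) (x : Half N) :
    Quot (VLinked G s X) := Quot.mk _ x

theorem vcl_next (G : GaussWord N) (s : Fin N → Bool) (X : Finset (Fin N)) (p : Fin N × Bool) :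
    vcl G s X (p, true) = vcl G s X (next G p, false) :=
  Quot.sound (Or.inl (Or.inl ⟨p, rfl, rfl⟩))

theorem vcl_true (G : GaussWord N) (s : Fin N → Bool) (X : Finset (Fin N)) (c : Fin N) (b : Bool)
    (hs : s c = true) : vcl G s X ((c, b), false) = vcl G s X ((c, !b), true) :=
  Quot.sound (Or.inl (Or.inr (Or.inl ⟨c, b, hs, rfl, rfl⟩)))

theorem vcl_false (G : GaussWord N) (s : Fin N → Bool) (X : Finset (Fin N)) (c : Fin N) (e : Bool)
    (hs : s c = false) : vcl G s X ((c, false), e) = vcl G s X ((c, true), e) :=
  Quot.sound (Or.inl (Or.inr (Or.inr ⟨c, e, hs, rfl, rfl⟩)))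

theorem vcl_chord (G : GaussWord N) (s : Fin N → Bool) (X : Finset (Fin N)) (c : Fin N)
    (hc : c ∈ X) : vcl G s X ((c, false), false) = vcl G s X ((c, false), true) :=
  Quot.sound (Or.inr ⟨c, hc, rfl, rfl⟩)

/-- at a crossing with a chord all four half edges are linked -/
theorem vcl_all (G : GaussWord N) (s : Fin N → Bool) (X : Finset (Fin N)) (c : Fin N)
    (hc : c ∈ X) (b e : Bool) : vcl G s X ((c, b), e) = vcl G s X ((c, false), false) := by
  have h0 := vcl_chord G s X c hc
  cases hs : s c
  · have h1 := vcl_false G s X c false hs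
    have h2 := vcl_false G s X c true hs
    cases b <;> cases e
    · rfl
    · exact h0.symm
    · exact h1.symm
    · exact h2.symm.trans h0.symm
  · have h1 := vcl_true G s X c false hs
    have h2 := vcl_true G s X c true hs
    rw [Bool.not_false] at h1
    rw [Bool.not_true] at h2
    cases b <;> cases e
    · rfl
    · exact h0.symm
    · exact h2.trans h0.symm
    · exact h1.symm

/-- the number of pieces does not depend on the smoothings at the crossings with a chord -/
theorem vpieces_congr (G : GaussWord N) (s s' : Fin N → Bool) (X : Finset (Fin N))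
    (h : ∀ c, c ∉ X → s c = s' c) : vpieces G s X = vpieces G s' X := by
  have key : ∀ (s s' : Fin N → Bool), (∀ c, c ∉ X → s c = s' c) → ∀ x y, VLinked G s X x y →
      vcl G s' X x = vcl G s' X y := by
    intro s s' h x y hxy
    rcases hxy with (⟨p, rfl, rfl⟩ | ⟨c, b, hs, rfl, rfl⟩ | ⟨c, e, hs, rfl, rfl⟩) | ⟨c, hc, rfl, rfl⟩
    · exact vcl_next G s' X p
    · by_cases hc : c ∈ X
      · exact (vcl_all G s' X c hc _ _).trans (vcl_all G s' X c hc _ _).symm
      · exact vcl_true G s' X c b (by rw [← h c hc]; exact hs)
    · by_cases hc : c ∈ X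
      · exact (vcl_all G s' X c hc _ _).trans (vcl_all G s' X c hc _ _).symm
      · exact vcl_false G s' X c e (by rw [← h c hc]; exact hs)
    · exact vcl_chord G s' X c hc
  unfold vpieces
  refine Nat.card_congr ⟨Quot.lift (vcl G s' X) (key s s' h),
    Quot.lift (vcl G s X) (key s' s fun c hc => (h c hc).symm), ?_, ?_⟩
  · rintro ⟨x⟩
    rfl
  · rintro ⟨x⟩
    rfl

/-- walking along the knot -/
theorem walk {α : Type} (G : GaussWord N) (φ : Fin N × Bool → α) (p q : Fin N × Bool)
    (hpq : (G p : ℕ) ≤ G q)
    (h : ∀ r, (G p : ℕ) ≤ G r → (G r : ℕ) < G q → φ (next G r) = φ r) : φ q = φ p := by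
  have key : ∀ (k : ℕ) (q : Fin N × Bool), (G q : ℕ) = G p + k →
      (∀ r, (G p : ℕ) ≤ G r → (G r : ℕ) < G q → φ (next G r) = φ r) → φ q = φ p := by
    intro k
    induction k with
    | zero =>
      intro q hq _
      have : G q = G p := Fin.ext (by omega)
      rw [G.injective this]
    | succ k ih =>
      intro q hq h
      have hlt : (G p : ℕ) + k < 2 * N := by
        have := (G q).2
        omega
      set r := G.symm ⟨(G p : ℕ) + k, hlt⟩ with hr
      have hGr : (G r : ℕ) = G p + k := by rw [hr, Equiv.apply_symm_apply]
      have h1 := ih r hGr (fun t h1 h2 => h t h1 (by omega))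
      have h2 := h r (by omega) (by omega)
      have h3 : next G r = q := by
        apply G.injective
        apply Fin.ext
        rw [next_val, if_neg (by have := (G q).2; omega)]
        omega
      rw [← h3, h2, h1]
  exact key ((G q : ℕ) - G p) q (by omega) h

/-- if the class of the entering half edge does not change at any crossing, then the graph is
connected -/
theorem vpieces_one (hN : 0 < N) (G : GaussWord N) (s : Fin N → Bool) (X : Finset (Fin N))
    (h : ∀ p, vcl G s X (p, false) = vcl G s X (p, true)) : vpieces G s X = 1 := by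
  set p0 := G.symm ⟨0, by omega⟩ with hp0
  have hG0 : (G p0 : ℕ) = 0 := by rw [hp0, Equiv.apply_symm_apply]
  have h1 : ∀ q, vcl G s X (q, false) = vcl G s X (p0, false) := fun q =>
    walk G (fun p => vcl G s X (p, false)) p0 q (by omega) (fun r _ _ => by
      rw [← vcl_next, h])
  unfold vpieces
  rw [Nat.card_eq_one_iff_unique]
  refine ⟨⟨?_⟩, ⟨vcl G s X (p0, false)⟩⟩
  have h2 : ∀ x : Quot (VLinked G s X), x = vcl G s X (p0, false) := by
    rintro ⟨⟨p, e⟩⟩
    change vcl G s X (p, e) = _
    cases e
    · exact h1 p
    · rw [← h, h1]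
  intro x y
  rw [h2 x, h2 y]

theorem vpieces_univ (hN : 0 < N) (G : GaussWord N) (s : Fin N → Bool) :
    vpieces G s univ = 1 :=
  vpieces_one hN G s univ (fun p => by
    obtain ⟨c, b⟩ := p
    exact (vcl_all G s univ c (mem_univ c) _ _).trans (vcl_all G s univ c (mem_univ c) _ _).symm)

theorem vpieces_erase_false (hN : 0 < N) (G : GaussWord N) (s : Fin N → Bool) (e : Fin N)
    (hs : s e = false) : vpieces G s (univ.erase e) = 1 := by
  set X := (univ : Finset (Fin N)).erase e with hX
  have hmem : ∀ c, c ≠ e → c ∈ X := fun c hc => mem_erase.2 ⟨hc, mem_univ c⟩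
  have hgen : ∀ r : Fin N × Bool, r.1 ≠ e → vcl G s X (r, false) = vcl G s X (r, true) := by
    rintro ⟨c, b⟩ hc
    exact (vcl_all G s X c (hmem c hc) _ _).trans (vcl_all G s X c (hmem c hc) _ _).symm
  have hin := vcl_false G s X e false hs
  have hout := vcl_false G s X e true hs
  -- from the first passage to the second one
  have hw : ∀ b, (G (e, b) : ℕ) < G (e, !b) →
      vcl G s X ((e, !b), false) = vcl G s X ((e, b), true) := by
    intro b hb
    have h1 : (G (next G (e, b)) : ℕ) = G (e, b) + 1 := by
      rw [next_val, if_neg]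
      have := (G (e, !b)).2
      omega
    have h2 := walk G (fun p => vcl G s X (p, false)) (next G (e, b)) (e, !b) (by omega) (by
      intro r hr1 hr2
      rw [← vcl_next, hgen r]
      intro hre
      obtain ⟨c, b'⟩ := r
      dsimp at hre
      subst hre
      rcases Bool.eq_or_eq_not b' b with h3 | h3
      · rw [h3] at hr1
        omega
      · rw [h3] at hr2
        omega)
    rw [vcl_next]
    exact h2
  have hio : vcl G s X ((e, false), false) = vcl G s X ((e, false), true) := by
    rcases lt_trichotomy (G (e, false) : ℕ) (G (e, true)) with h1 | h1 | h1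
    · have h2 := hw false h1
      rw [Bool.not_false] at h2
      rw [hin, h2]
    · exfalso
      have h2 := G.injective (Fin.ext h1)
      simp at h2
    · have h2 := hw true h1
      rw [Bool.not_true] at h2
      rw [h2, hout]
  refine vpieces_one hN G s X ?_
  rintro ⟨c, b⟩
  by_cases hc : c = e
  · subst hc
    cases b
    · exact hio
    · rw [← hin, hio, hout]
  · exact hgen (c, b) hc

/-- the number of curves of a state changed at one crossing -/
theorem loops_flip (hN : 0 < N) (G : GaussWord N) (s : Fin N → Bool) (X : Finset (Fin N)) :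
    (vsys hN G s).f X = loops G (H867R3.Kn.flip s X) := by
  rw [vsys_f, loops_L]
  rfl

theorem loops_empty (hN : 0 < N) (G : GaussWord N) (s : Fin N → Bool) :
    (vsys hN G s).f ∅ = loops G s := by
  rw [(vsys hN G s).f_empty]
  exact vsys_verts hN G s

/-- A crossing which is a bridge of the state graph of a state with the oriented smoothing is a loop
of the state graph of every state with the unoriented smoothing. -/
theorem bridge_loop (hN : 0 < N) (G : GaussWord N) (s s' : Fin N → Bool) (e : Fin N)
    (hbr : vpieces G s (univ.erase e) = 2) (hs' : s' e = false) :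
    vpieces G s' {e} = vpieces G s' ∅ := by
  rcases (vsys hN G s').cc_step ∅ e (notMem_empty e) with h1 | h1
  · rw [insert_empty_eq] at h1
    exact h1
  · exfalso
    have hse : s e = true := by
      by_contra hcon
      rw [Bool.not_eq_true] at hcon
      rw [vpieces_erase_false hN G s e hcon] at hbr
      omega
    have h2 := (vsys hN G s').f_br ∅ e (notMem_empty e) h1
    rw [insert_empty_eq, loops_flip, loops_empty] at h2
    set s'' := H867R3.Kn.flip s' {e} with hs''
    have h3 : s'' e = true := by
      rw [hs'']
      simp [H867R3.Kn.flip, hs']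
    have h4 : vpieces G s'' (univ.erase e) = 2 := by
      rw [← hbr]
      apply vpieces_congr
      intro c hc
      have : c = e := by
        by_contra hce
        exact hc (mem_erase.2 ⟨hce, mem_univ c⟩)
      rw [this, h3, hse]
    have h5 : (vsys hN G s'').cc (insert e ∅) + 1 = (vsys hN G s'').cc ∅ := by
      refine (vsys hN G s'').br_mono ∅ (univ.erase e) e (empty_subset _) (notMem_erase e _) ?_
      rw [insert_erase (mem_univ e), vsys_cc, vsys_cc, h4, vpieces_univ hN]
    have h6 := (vsys hN G s'').f_br ∅ e (notMem_empty e) h5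
    rw [insert_empty_eq, loops_flip, loops_empty] at h6
    have h7 : H867R3.Kn.flip s'' {e} = s' := by
      rw [hs'']
      funext c
      by_cases hc : c = e
      · simp [H867R3.Kn.flip, hc]
      · simp [H867R3.Kn.flip, hc]
    rw [h7] at h6
    omega

end Pool.Agent.H756.VK
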